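import Pool.Agent.H200W.Stm3

/-! # Project WR (helper200): job CARD -/

set_option autoImplicit false

namespace Pool.Agent.Q275.WR

open Finset Pool.Agent.H200W

/-- lattice triangle `x, y ≥ 0`, `x + y < n` -/
noncomputable def tri (n : ℕ) : Finset (ℤ × ℤ) :=
  (Icc (0 : ℤ) n ×ˢ Icc (0 : ℤ) n).filter fun p => p.1 + p.2 < (n : ℤ)

theorem mem_tri {n : ℕ} {p : ℤ × ℤ} : p ∈ tri n ↔ 0 ≤ p.1 ∧ 0 ≤ p.2 ∧ p.1 + p.2 < (n : ℤ) := by
  unfold tri
  rw [mem_filter, mem_product, mem_Icc, mem_Icc]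
  constructor
  · rintro ⟨⟨h1, h2⟩, h3⟩
    exact ⟨h1.1, h2.1, h3⟩
  · rintro ⟨h1, h2, h3⟩
    exact ⟨⟨⟨h1, by omega⟩, ⟨h2, by omega⟩⟩, h3⟩

theorem card_tri (n : ℕ) : 2 * (tri n).card = n * (n + 1) := by
  induction n with
  | zero =>
    have h : tri 0 = ∅ := by
      ext p
      rw [mem_tri]
      simp only [notMem_empty, iff_false]
      push_cast
      omega
    rw [h]
    rfl
  | succ n ih =>
    have h1 : tri (n + 1) = tri n ∪ (range (n + 1)).image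
        (fun i : ℕ => (((i : ℤ), (n : ℤ) - i) : ℤ × ℤ)) := by
      ext ⟨x, y⟩
      rw [mem_union, mem_tri, mem_tri, mem_image]
      simp only [mem_range, Prod.mk.injEq]
      push_cast
      constructor
      · rintro ⟨a, b, c⟩
        by_cases h : x + y < n
        · exact Or.inl ⟨a, b, h⟩
        · right
          refine ⟨x.toNat, by omega, by omega, by omega⟩
      · rintro (⟨a, b, c⟩ | ⟨i, hi, rfl, rfl⟩)
        · exact ⟨a, b, by omega⟩
        · exact ⟨by omega, by omega, by omega⟩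
    have h2 : Disjoint (tri n) ((range (n + 1)).image
        (fun i : ℕ => (((i : ℤ), (n : ℤ) - i) : ℤ × ℤ))) := by
      rw [Finset.disjoint_left]
      intro p hp hp'
      rw [mem_tri] at hp
      rw [mem_image] at hp'
      obtain ⟨i, -, rfl⟩ := hp'
      simp only at hp
      omega
    rw [h1, card_union_of_disjoint h2, card_image_of_injOn, card_range, mul_add, ih]
    · ring
    · intro i _ j _ hij
      simp only [Prod.mk.injEq] at hij
      omega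

theorem mem_HX {M1 M2 M3 d : ℕ} {p : ℤ × ℤ} : p ∈ HX M1 M2 M3 d ↔
    0 ≤ p.1 ∧ p.1 ≤ (d : ℤ) - M2 ∧ 0 ≤ p.2 ∧ p.2 ≤ (d : ℤ) - M1 ∧ p.1 + p.2 ≤ d ∧
      (M3 : ℤ) ≤ p.1 + p.2 := by
  unfold HX
  rw [mem_filter, mem_product, mem_Icc, mem_Icc]
  tauto

/-- job CARD -/
theorem card : S_CardHX := by
  intro M1 M2 M3 d h32 h21 hd
  have hB : ((tri M1).image fun p : ℤ × ℤ => ((p.1, p.2 + (d - M1 + 1)) : ℤ × ℤ)).card =
      (tri M1).card := by
    apply card_image_of_injective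
    rintro ⟨x, y⟩ ⟨x', y'⟩ h
    simp only [Prod.mk.injEq] at h ⊢
    omega
  have hC : ((tri M2).image fun p : ℤ × ℤ => ((p.1 + (d - M2 + 1), p.2) : ℤ × ℤ)).card =
      (tri M2).card := by
    apply card_image_of_injective
    rintro ⟨x, y⟩ ⟨x', y'⟩ h
    simp only [Prod.mk.injEq] at h ⊢
    omega
  have memB : ∀ p : ℤ × ℤ, p ∈ (tri M1).image (fun p : ℤ × ℤ =>
      ((p.1, p.2 + (d - M1 + 1)) : ℤ × ℤ)) ↔ 0 ≤ p.1 ∧ (d : ℤ) - M1 + 1 ≤ p.2 ∧ p.1 + p.2 ≤ d := by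
    rintro ⟨x, y⟩
    rw [mem_image]
    constructor
    · rintro ⟨⟨a, b⟩, h, he⟩
      rw [mem_tri] at h
      simp only [Prod.mk.injEq] at h he ⊢
      omega
    · rintro ⟨h1, h2, h3⟩
      refine ⟨(x, y - (d - M1 + 1)), ?_, ?_⟩
      · rw [mem_tri]
        simp only at h1 h2 h3 ⊢
        omega
      · simp
  have memC : ∀ p : ℤ × ℤ, p ∈ (tri M2).image (fun p : ℤ × ℤ =>
      ((p.1 + (d - M2 + 1), p.2) : ℤ × ℤ)) ↔ (d : ℤ) - M2 + 1 ≤ p.1 ∧ 0 ≤ p.2 ∧ p.1 + p.2 ≤ d := by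
    rintro ⟨x, y⟩
    rw [mem_image]
    constructor
    · rintro ⟨⟨a, b⟩, h, he⟩
      rw [mem_tri] at h
      simp only [Prod.mk.injEq] at h he ⊢
      omega
    · rintro ⟨h1, h2, h3⟩
      refine ⟨(x - (d - M2 + 1), y), ?_, ?_⟩
      · rw [mem_tri]
        simp only at h1 h2 h3 ⊢
        omega
      · simp
  have hun : tri (d + 1) = HX M1 M2 M3 d ∪ (tri M3 ∪
      ((tri M1).image (fun p : ℤ × ℤ => ((p.1, p.2 + (d - M1 + 1)) : ℤ × ℤ)) ∪
        (tri M2).image (fun p : ℤ × ℤ => ((p.1 + (d - M2 + 1), p.2) : ℤ × ℤ)))) := by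
    ext p
    rw [mem_union, mem_union, mem_union, memB, memC, mem_tri, mem_tri, mem_HX]
    push_cast
    omega
  have d1 : Disjoint (HX M1 M2 M3 d) (tri M3 ∪
      ((tri M1).image (fun p : ℤ × ℤ => ((p.1, p.2 + (d - M1 + 1)) : ℤ × ℤ)) ∪
        (tri M2).image (fun p : ℤ × ℤ => ((p.1 + (d - M2 + 1), p.2) : ℤ × ℤ)))) := by
    rw [Finset.disjoint_left]
    intro p hp hp'
    rw [mem_HX] at hp
    rw [mem_union, mem_union, memB, memC, mem_tri] at hp'
    omega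
  have d2 : Disjoint (tri M3)
      ((tri M1).image (fun p : ℤ × ℤ => ((p.1, p.2 + (d - M1 + 1)) : ℤ × ℤ)) ∪
        (tri M2).image (fun p : ℤ × ℤ => ((p.1 + (d - M2 + 1), p.2) : ℤ × ℤ))) := by
    rw [Finset.disjoint_left]
    intro p hp hp'
    rw [mem_tri] at hp
    rw [mem_union, memB, memC] at hp'
    omega
  have d3 : Disjoint ((tri M1).image (fun p : ℤ × ℤ => ((p.1, p.2 + (d - M1 + 1)) : ℤ × ℤ)))
        ((tri M2).image (fun p : ℤ × ℤ => ((p.1 + (d - M2 + 1), p.2) : ℤ × ℤ))) := by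
    rw [Finset.disjoint_left]
    intro p hp hp'
    rw [memB] at hp
    rw [memC] at hp'
    omega
  have hc := congrArg Finset.card hun
  rw [card_union_of_disjoint d1, card_union_of_disjoint d2, card_union_of_disjoint d3, hB, hC] at hc
  have e0 := card_tri (d + 1)
  have e1 := card_tri M1
  have e2 := card_tri M2
  have e3 := card_tri M3
  have e4 : (d + 1) * (d + 2) = (d + 1) * (d + 1 + 1) := by ring
  rw [e4, ← e0, hc, ← e1, ← e2, ← e3]
  ring

end Pool.Agent.Q275.WR
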