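import Pool.Agent.H200W.Stm3
import Pool.Agent.Q275.WR.Card

/-! # Project WR (helper200): jobs HEXS, HEXE, WIN -/

set_option autoImplicit false

namespace Pool.Agent.Q275.WR

open Finset Pool.Agent.TH176.Nag Pool.Agent.TH603.Sur Pool.Agent.TH2.NU Pool.Agent.TH641.UM
open Pool.Agent.Y205.FW Pool.Agent.Y205.MD Pool.Agent.H200W

theorem goodS_mono {h u : ℝ} {S : Set (ℤ × ℤ)} {α α' : ℝ} (hg : GoodS h u S α) (hα : α' ≤ α) :
    GoodS h u S α' := fun L hL hsum => hg L hL (hsum.trans hα)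

theorem goodE_mono {h u : ℝ} {S : Set (ℤ × ℤ)} {α α' : ℝ} (hg : GoodE h u S α) (hα : α ≤ α') :
    GoodE h u S α' := fun L hL hsum => hg L hL (hα.trans hsum)

/-- the function `ga` in the upper part -/
theorem ga_up {M2 M3 D t : ℝ} (h2 : M2 ≤ t) (h3 : M3 ≤ t) :
    ga M3 (D - M2) D t = 2 * D * t - t ^ 2 - M2 ^ 2 := by
  unfold ga
  have e1 : D - (D - M2) = M2 := by ring
  rw [e1, max_eq_right (by linarith : (0:ℝ) ≤ t - M2), max_eq_left (by linarith : M3 - t ≤ 0)]
  ring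

theorem ga_zero {M2 M3 D : ℝ} (h2 : 0 ≤ M2) (h3 : 0 ≤ M3) :
    ga M3 (D - M2) D 0 = M3 ^ 2 := by
  unfold ga
  have e1 : D - (D - M2) = M2 := by ring
  rw [e1, max_eq_left (by linarith : 0 - M2 ≤ 0), max_eq_right (by linarith : (0:ℝ) ≤ M3 - 0)]
  ring

theorem rl_zero {M2 M3 D : ℝ} (h2 : 0 ≤ M2) (h3 : 0 ≤ M3) :
    rl M3 (D - M2) D 0 = D - M2 - M3 := by
  unfold rl
  rw [min_eq_left (by linarith), max_eq_right (by linarith)]
  ring

theorem rl_up {M2 M3 D t : ℝ} (h2 : M2 ≤ t) (h3 : M3 ≤ t) :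
    rl M3 (D - M2) D t = D - t := by
  unfold rl
  rw [min_eq_right (by linarith), max_eq_left (by linarith)]
  ring

theorem cont_al (D c : ℝ) (t0 t1 : ℝ) :
    ContinuousOn (fun t : ℝ => 2 * D * t - t ^ 2 - c) (Set.Icc t0 t1) := by
  fun_prop

/-- job HEXS -/
theorem hexS : S_HexS := by
  intro hcut hdiv hstack hcorn h D M1 M2 M3 hh h32 h21 hD hH
  obtain ⟨m1, hm1⟩ : ∃ m1 : ℝ, m1 = (M1 : ℝ) := ⟨_, rfl⟩
  obtain ⟨m2, hm2⟩ : ∃ m2 : ℝ, m2 = (M2 : ℝ) := ⟨_, rfl⟩
  obtain ⟨m3, hm3⟩ : ∃ m3 : ℝ, m3 = (M3 : ℝ) := ⟨_, rfl⟩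
  obtain ⟨δ, hδ⟩ : ∃ δ : ℝ, δ = (D : ℝ) := ⟨_, rfl⟩
  have g3 : 0 ≤ m3 := by rw [hm3]; positivity
  have g32 : m3 ≤ m2 := by rw [hm3, hm2]; exact_mod_cast h32
  have g21 : m2 ≤ m1 := by rw [hm2, hm1]; exact_mod_cast h21
  have gD : m1 + m2 + m3 ≤ δ := by rw [hm1, hm2, hm3, hδ]; exact_mod_cast hD
  rw [← hδ, ← hm1] at hH
  rw [← hδ, ← hm1, ← hm2, ← hm3]
  obtain ⟨H, hHd⟩ : ∃ H : ℝ, H = δ - m1 := ⟨_, rfl⟩
  rw [← hHd] at hH
  have hHpos : 0 < H := by linarith
  have hD' : δ = H + m1 := by linarith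
  have g0 := ga_zero (M2 := m2) (M3 := m3) (D := δ) (by linarith) g3
  have r0 := rl_zero (M2 := m2) (M3 := m3) (D := δ) (by linarith) g3
  by_cases hc : H ≤ 4 * m1
  · -- one stack
    have k := hstack (h := h) (u := 1024 * h ^ 2) (G := H / 52) (M := m3) (q := δ - m2) (d := δ)
      (y0 := 0) (y1 := δ - m1) hh (by linarith) (by positivity) (by nlinarith) (by linarith)
      (by rw [r0]; linarith) (by rw [rl_up (by linarith) (by linarith)]; linarith)
    refine goodS_mono k ?_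
    rw [g0, ga_up (by linarith) (by linarith)]
    have e1 : 2 * δ * (δ - m1) - (δ - m1) ^ 2 = δ ^ 2 - m1 ^ 2 := by ring
    rw [e1, ← hHd]
    linarith
  · push Not at hc
    refine hdiv (t0 := H / 2) (t1 := 3 / 5 * H)
      (fun t => ZO m3 (δ - m2) δ 0 t)
      (fun t => {p : ℤ × ℤ | t < (p.2 : ℝ) ∧ (p.2 : ℝ) < δ - m1 ∧ 0 < p.1 ∧ (p.1 : ℝ) < δ - p.2})
      (fun t => 2 * δ * t - t ^ 2 - (m2 ^ 2 + m3 ^ 2) - 6 * t)
      (fun t => (δ - t) ^ 2 - m1 ^ 2 - 7 * (δ - t)) (by linarith) ?_ ?_ ?_ (by positivity) ?_ ?_ ?_ ?_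
    · fun_prop
    · rw [hD']
      nlinarith
    · rw [hD']
      nlinarith
    · intro t ht
      have h1 := ht.1
      have h2 := ht.2
      nlinarith
    · intro t ht
      have h1 := ht.1
      have h2 := ht.2
      have k := hstack (h := h) (u := 1024 * h ^ 2) (G := H / 52) (M := m3) (q := δ - m2) (d := δ)
        (y0 := 0) (y1 := t) hh (by linarith) (by positivity) (by nlinarith) (by linarith)
        (by rw [r0]; linarith) (by rw [rl_up (by linarith) (by linarith)]; linarith)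
      refine goodS_mono k ?_
      rw [g0, ga_up (by linarith) (by linarith)]
      linarith
    · intro t ht
      have h1 := ht.1
      have h2 := ht.2
      have k := hcorn (h := h) (M := m1) (b := δ - t) hh (by linarith) (by linarith) (by linarith)
      intro L hL hsum
      refine Sur.comap (k L hL hsum) (-1) (-1) 1 0 D 0 (by norm_num) ?_
      rintro ⟨z, x⟩ ⟨a1, a2, a3, a4, a5, a6⟩
      simp only at a1 a2 a3 a4 a5 a6
      have a3' : (0:ℝ) < z := by exact_mod_cast a3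
      have hDz : ((D : ℤ) : ℝ) = δ := by rw [hδ]; rfl
      refine ⟨(x, D - z - x), ⟨?_, ?_, ?_, ?_⟩, ?_⟩
      · simp only
        push_cast
        rw [hDz] at *
        linarith
      · simp only
        push_cast
        rw [hDz] at *
        linarith
      · simp only
        exact_mod_cast a1
      · simp only
        push_cast
        rw [hDz] at *
        linarith
      · ext
        · simp only
          ring
        · simp only
          ring
    · intro t ht N1 N2 hN1 hN2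
      have h1 := ht.1
      have h2 := ht.2
      refine hcut 0 1 t ?_ ?_ hN1 hN2
      · rintro p ⟨a1, a2, a3, a4, a5, a6⟩
        refine ⟨⟨a1, by linarith, a3, a4, a5, a6⟩, by linarith⟩
      · rintro p ⟨a1, a2, a3, a4⟩
        have a3' : (0:ℝ) < p.1 := by exact_mod_cast a3
        refine ⟨⟨by linarith, a2, a3, by linarith, by linarith, a4⟩, by linarith⟩

/-- job HEXE -/
theorem hexE : S_HexE := by
  intro hcut hdiv hstack hcorn h D M1 M2 M3 hh h32 h21 hD hH
  obtain ⟨m1, hm1⟩ : ∃ m1 : ℝ, m1 = (M1 : ℝ) := ⟨_, rfl⟩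
  obtain ⟨m2, hm2⟩ : ∃ m2 : ℝ, m2 = (M2 : ℝ) := ⟨_, rfl⟩
  obtain ⟨m3, hm3⟩ : ∃ m3 : ℝ, m3 = (M3 : ℝ) := ⟨_, rfl⟩
  obtain ⟨δ, hδ⟩ : ∃ δ : ℝ, δ = (D : ℝ) := ⟨_, rfl⟩
  have g3 : 0 ≤ m3 := by rw [hm3]; positivity
  have g32 : m3 ≤ m2 := by rw [hm3, hm2]; exact_mod_cast h32
  have g21 : m2 ≤ m1 := by rw [hm2, hm1]; exact_mod_cast h21
  have gD : m1 + m2 + m3 ≤ δ := by rw [hm1, hm2, hm3, hδ]; exact_mod_cast hD
  rw [← hδ, ← hm1] at hH
  rw [← hδ, ← hm1, ← hm2, ← hm3]
  obtain ⟨H, hHd⟩ : ∃ H : ℝ, H = δ - m1 := ⟨_, rfl⟩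
  rw [← hHd] at hH
  have hHpos : 0 < H := by linarith
  have hD' : δ = H + m1 := by linarith
  have g0 := ga_zero (M2 := m2) (M3 := m3) (D := δ) (by linarith) g3
  have r0 := rl_zero (M2 := m2) (M3 := m3) (D := δ) (by linarith) g3
  by_cases hc : H ≤ 4 * m1
  · -- one stack
    have k := hstack (h := h) (u := 1024 * h ^ 2) (G := H / 52) (M := m3) (q := δ - m2) (d := δ)
      (y0 := 0) (y1 := δ - m1) hh (by linarith) (by positivity) (by nlinarith) (by linarith)
      (by rw [r0]; linarith) (by rw [rl_up (by linarith) (by linarith)]; linarith)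
    refine goodE_mono k ?_
    rw [g0, ga_up (by linarith) (by linarith)]
    have e1 : 2 * δ * (δ - m1) - (δ - m1) ^ 2 = δ ^ 2 - m1 ^ 2 := by ring
    rw [e1]
  · push Not at hc
    refine hdiv (t0 := H / 2) (t1 := 3 / 5 * H)
      (fun t => ZC m3 (δ - m2) δ 0 t)
      (fun t => {p : ℤ × ℤ | t ≤ (p.2 : ℝ) ∧ (p.2 : ℝ) ≤ δ - m1 ∧ 0 ≤ p.1 ∧ (p.1 : ℝ) ≤ δ - p.2})
      (fun t => 2 * δ * t - t ^ 2 - (m2 ^ 2 + m3 ^ 2))
      (fun t => (δ - t) ^ 2 - m1 ^ 2) (by linarith) ?_ ?_ ?_ (by positivity) ?_ ?_ ?_ ?_ ?_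
    · fun_prop
    · rw [hD']
      nlinarith
    · rw [hD']
      nlinarith
    · intro t ht
      nlinarith
    · intro t ht
      have h1 := ht.1
      have h2 := ht.2
      nlinarith
    · intro t ht
      have h1 := ht.1
      have h2 := ht.2
      have k := hstack (h := h) (u := 1024 * h ^ 2) (G := H / 52) (M := m3) (q := δ - m2) (d := δ)
        (y0 := 0) (y1 := t) hh (by linarith) (by positivity) (by nlinarith) (by linarith)
        (by rw [r0]; linarith) (by rw [rl_up (by linarith) (by linarith)]; linarith)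
      refine goodE_mono k ?_
      rw [g0, ga_up (by linarith) (by linarith)]
      linarith
    · intro t ht
      have h1 := ht.1
      have h2 := ht.2
      have k := hcorn (h := h) (M := m1) (b := δ - t) hh (by linarith) (by linarith) (by linarith)
      intro L hL hsum
      refine Emp.comap (k L hL hsum) (-1) (-1) 1 0 D 0 (by norm_num) ?_
      rintro ⟨x, y⟩ ⟨a1, a2, a3, a4⟩
      simp only at a1 a2 a3 a4
      have a3' : (0:ℝ) ≤ x := by exact_mod_cast a3
      have hDz : ((D : ℤ) : ℝ) = δ := by rw [hδ]; rfl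
      refine ⟨?_, ?_, ?_, ?_, ?_, ?_⟩
      · push_cast
        linarith
      · push_cast
        linarith
      · have b1 : (x : ℝ) + y ≤ ((D : ℤ) : ℝ) := by rw [hDz]; linarith
        have b2 : x + y ≤ (D : ℤ) := by exact_mod_cast b1
        simp only
        linarith
      · simp only
        push_cast
        rw [hDz] at *
        linarith
      · simp only
        push_cast
        rw [hDz] at *
        linarith
      · simp only
        push_cast
        rw [hDz] at *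
        linarith
    · intro t ht N1 N2 hN1 hN2
      have h1 := ht.1
      have h2 := ht.2
      refine hcut 0 1 t ?_ ?_ hN1 hN2
      · refine ((Set.finite_Icc (0 : ℤ) ⌊δ⌋).prod (Set.finite_Icc (0 : ℤ) ⌊δ⌋)).subset ?_
        rintro p ⟨a1, a2, a3, a4, a5, a6⟩
        have a3' : (0:ℝ) ≤ p.1 := by exact_mod_cast a3
        refine ⟨⟨a3, Int.le_floor.2 (by linarith)⟩, ⟨by exact_mod_cast a1,
          Int.le_floor.2 (by linarith)⟩⟩
      · rintro p ⟨a1, a2, a3, a4, a5, a6⟩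
        rcases le_or_gt (p.2 : ℝ) t with hp | hp
        · left
          exact ⟨⟨a1, hp, a3, a4, a5, a6⟩, by linarith⟩
        · right
          exact ⟨⟨hp.le, a2, a3, a6⟩, by linarith⟩

/-- job WIN -/
theorem win : S_Win := by
  intro hexS hexE hcard h d M1 M2 M3 hh h32 h21 hd hH
  have hc := hcard h32 h21 hd
  have hcR : 2 * ((HX M1 M2 M3 d).card : ℝ) + ((M1 : ℝ) * (M1 + 1) + M2 * (M2 + 1) +
      M3 * (M3 + 1)) = (d + 1) * (d + 2) := by exact_mod_cast hc
  have hdR : (M1 : ℝ) + M2 + M3 ≤ d := by exact_mod_cast hd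
  have h0 : (0:ℝ) ≤ M3 := Nat.cast_nonneg _
  have h0' : (0:ℝ) ≤ M2 := Nat.cast_nonneg _
  have h0'' : (0:ℝ) ≤ M1 := Nat.cast_nonneg _
  constructor
  · have k := hexS (h := h) (D := d + 3) (M1 := M1 + 1) (M2 := M2 + 1) (M3 := M3 + 1) hh
      (by omega) (by omega) (by omega) (by push_cast; linarith)
    intro L hL hsum
    refine Sur.shift (k L hL (hsum.trans ?_)) 1 1 ?_
    · push_cast
      nlinarith
    · rintro ⟨x, y⟩ ⟨a1, a2, a3, a4, a5, a6⟩
      simp only at a1 a2 a3 a4 a5 a6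
      push_cast at a1 a2 a4 a5 a6
      rw [mem_coe, mem_HX]
      have b1 : 0 < y := by exact_mod_cast a1
      have b2 : y < (d : ℤ) + 3 - (M1 + 1) := by exact_mod_cast a2
      have b4 : (M3 : ℤ) + 1 - y < x := by exact_mod_cast a4
      have b5 : x < (d : ℤ) + 3 - (M2 + 1) := by exact_mod_cast a5
      have b6 : x < (d : ℤ) + 3 - y := by exact_mod_cast a6
      simp only
      omega
  · have k := hexE (h := h) (D := d) (M1 := M1) (M2 := M2) (M3 := M3) hh h32 h21 hd hH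
    intro L hL hsum
    refine Emp.mono (k L hL (le_trans ?_ hsum)) ?_
    · nlinarith
    · intro p hp
      rw [mem_coe, mem_HX] at hp
      obtain ⟨a1, a2, a3, a4, a5, a6⟩ := hp
      have b1 : (0:ℝ) ≤ p.2 := by exact_mod_cast a3
      have b2 : (p.2 : ℝ) ≤ (d : ℝ) - M1 := by exact_mod_cast a4
      have b3 : (p.1 : ℝ) ≤ (d : ℝ) - M2 := by exact_mod_cast a2
      have b4 : (p.1 : ℝ) + p.2 ≤ d := by exact_mod_cast a5
      have b5 : (M3 : ℝ) ≤ p.1 + p.2 := by exact_mod_cast a6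
      exact ⟨b1, b2, a1, by linarith, b3, by linarith⟩

end Pool.Agent.Q275.WR
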