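import Pool.Agent.H200W.Stm3

/-! # Project WR (helper200): job LG -/

set_option autoImplicit false

namespace Pool.Agent.Q275.WR

open Finset Pool.Agent.TH176.Nag Pool.Agent.TH603.Sur Pool.Agent.TH2.NU Pool.Agent.TH641.UM
open Pool.Agent.Y205.FW Pool.Agent.Y205.MD Pool.Agent.H200W

theorem linGoodS : S_LinGoodS := by
  intro hlin hfat h u D0 D1 y0 H l hh hH h0 h1
  have hH0 : 0 < H := by linarith
  rcases le_total D1 D0 with hD | hD
  · have hs : 0 ≤ (D0 - D1) / H := div_nonneg (by linarith) hH0.le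
    have e0 : (D0 - D1) / H * H = D0 - D1 := div_mul_cancel₀ _ hH0.ne'
    have hg := hfat (h := h) (u := u) (B := D0) (s := (D0 - D1) / H) (H := H) hh hH hs
      (by rw [e0]; linarith)
    intro L hL hsum
    refine hlin l D0 ((D0 - D1) / H) y0 H hH0 hs (by rw [e0]; linarith) (Or.inl ?_)
      (hg L hL (hsum.trans (le_of_eq ?_)))
    · intro p a1 a2 a3 a4
      refine ⟨a1, a2, a3, lt_of_lt_of_eq a4 ?_⟩
      ring
    · rw [e0]
      ring
  · have hs : 0 ≤ (D1 - D0) / H := div_nonneg (by linarith) hH0.le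
    have e0 : (D1 - D0) / H * H = D1 - D0 := div_mul_cancel₀ _ hH0.ne'
    have hg := hfat (h := h) (u := u) (B := D1) (s := (D1 - D0) / H) (H := H) hh hH hs
      (by rw [e0]; linarith)
    intro L hL hsum
    refine hlin l D1 ((D1 - D0) / H) y0 H hH0 hs (by rw [e0]; linarith) (Or.inr ?_)
      (hg L hL (hsum.trans (le_of_eq ?_)))
    · intro p a1 a2 a3 a4
      refine ⟨a1, a2, a3, lt_of_lt_of_eq a4 ?_⟩
      have e1 : (D1 - D0) / H * (y0 + H - p.2) = (D1 - D0) / H * H - (D1 - D0) / H * (p.2 - y0) := by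
        ring
      rw [e1, e0]
      ring
    · rw [e0]
      ring

theorem linGoodE : S_LinGoodE := by
  intro hlin hfat h u D0 D1 y0 H l hh hH h0 h1
  have hH0 : 0 < H := by linarith
  rcases le_total D1 D0 with hD | hD
  · have hs : 0 ≤ (D0 - D1) / H := div_nonneg (by linarith) hH0.le
    have e0 : (D0 - D1) / H * H = D0 - D1 := div_mul_cancel₀ _ hH0.ne'
    have hg := hfat (h := h) (u := u) (B := D0) (s := (D0 - D1) / H) (H := H) hh hH hs
      (by rw [e0]; linarith)
    intro L hL hsum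
    refine hlin l D0 ((D0 - D1) / H) y0 H hH0 hs (by rw [e0]; linarith) (Or.inl ?_)
      (hg L hL (le_trans (le_of_eq ?_) hsum))
    · rintro p ⟨a1, a2, a3, a4⟩
      refine ⟨a1, a2, a3, le_of_le_of_eq a4 ?_⟩
      ring
    · rw [e0]
      ring
  · have hs : 0 ≤ (D1 - D0) / H := div_nonneg (by linarith) hH0.le
    have e0 : (D1 - D0) / H * H = D1 - D0 := div_mul_cancel₀ _ hH0.ne'
    have hg := hfat (h := h) (u := u) (B := D1) (s := (D1 - D0) / H) (H := H) hh hH hs
      (by rw [e0]; linarith)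
    intro L hL hsum
    refine hlin l D1 ((D1 - D0) / H) y0 H hH0 hs (by rw [e0]; linarith) (Or.inr ?_)
      (hg L hL (le_trans (le_of_eq ?_) hsum))
    · rintro p ⟨a1, a2, a3, a4⟩
      refine ⟨a1, a2, a3, le_of_le_of_eq a4 ?_⟩
      have e1 : (D1 - D0) / H * (y0 + H - p.2) = (D1 - D0) / H * H - (D1 - D0) / H * (p.2 - y0) := by
        ring
      rw [e1, e0]
      ring
    · rw [e0]
      ring

theorem bumpGoodS : S_BumpGoodS := by
  intro hbump hfat h u e α β y0 H l hh hH he hα hβ hαβ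
  have hH0 : 0 < H := by linarith
  have hg := hfat (h := h) (u := u) (B := e + α * β * H) (s := α * β) (H := H) hh hH
    (mul_nonneg hα hβ) (by linarith)
  intro L hL hsum
  refine hbump l e α β y0 H hH0 (by linarith) hα hβ hαβ ?_ (hg L hL (hsum.trans (le_of_eq ?_)))
  · intro p a1 a2 a3 a4
    exact ⟨a1, a2, a3, a4⟩
  · ring

theorem bumpGoodE : S_BumpGoodE := by
  intro hbump hfat h u e α β y0 H l hh hH he hα hβ hαβ
  have hH0 : 0 < H := by linarith
  have hg := hfat (h := h) (u := u) (B := e + α * β * H) (s := α * β) (H := H) hh hH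
    (mul_nonneg hα hβ) (by linarith)
  intro L hL hsum
  refine hbump l e α β y0 H hH0 (by linarith) hα hβ hαβ ?_ (hg L hL (le_trans (le_of_eq ?_) hsum))
  · rintro p ⟨a1, a2, a3, a4⟩
    exact ⟨a1, a2, a3, a4⟩
  · ring

/-- job LG -/
theorem lg : S_LinGoodS ∧ S_LinGoodE ∧ S_BumpGoodS ∧ S_BumpGoodE :=
  ⟨linGoodS, linGoodE, bumpGoodS, bumpGoodE⟩

end Pool.Agent.Q275.WR
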