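import Pool.Agent.H200W.Stm

/-! # Project WR (helper200): jobs TIP and CUT -/

set_option autoImplicit false
set_option linter.unusedSectionVars false

namespace Pool.Agent.Q275.WR

open Finset Pool.Agent.TH176.Nag Pool.Agent.TH603.Sur Pool.Agent.TH2.NU Pool.Agent.TH641.UM
open Pool.Agent.Y205.FW Pool.Agent.Y205.MD Pool.Agent.H200W

theorem tipS (hrow : S_RowS) (hcol : S_ColS) : S_TipS := by
  intro M b ρ hb hρ h
  have h1ρ : 0 < 1 + ρ := by linarith
  -- rows of the final set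
  have h1 : SurM M {p : ℤ × ℤ | 0 < p.1 ∧ (p.1 : ℝ) <
      (fun j : ℤ => if 0 < j then (b - (1 + ρ) * j) * (1 + ρ) / ρ else 0) p.2} := by
    refine Sur.mono h ?_
    rintro ⟨x, j⟩ ⟨hx, hj, hxj⟩
    simp only [Set.mem_ofPred_eq] at hx hj hxj ⊢
    refine ⟨hx, ?_⟩
    rw [if_pos hj, lt_div_iff₀ hρ]
    have e1 : (x : ℝ) * ρ + (1 + ρ) ^ 2 * j < b * (1 + ρ) := by
      have e2 : ((x : ℝ) + (1 + ρ) ^ 2 / ρ * j) * ρ < b * (1 + ρ) / ρ * ρ :=
        mul_lt_mul_of_pos_right hxj hρ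
      rw [div_mul_cancel₀ _ hρ.ne'] at e2
      have e3 : ((x : ℝ) + (1 + ρ) ^ 2 / ρ * j) * ρ = (x : ℝ) * ρ + (1 + ρ) ^ 2 * j := by
        field_simp
      rwa [e3] at e2
    nlinarith
  -- push the rows
  have h2 : SurM M {p : ℤ × ℤ | 0 < p.2 ∧ (p.2 : ℝ) <
      (fun c : ℤ => (b - c) / (1 + ρ) - (if 0 ≤ c then (0:ℝ) else -(c : ℝ))) p.1} := by
    refine hrow (fun j => -((b - (1 + ρ) * j) / ρ))
      (fun j : ℤ => if 0 < j then (b - (1 + ρ) * j) * (1 + ρ) / ρ else 0) ?_ h1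
    intro c j hc1 hc2
    simp only [Set.mem_ofPred_eq] at hc1 hc2 ⊢
    by_cases hj : 0 < j
    · rw [if_pos hj] at hc2
      refine ⟨hj, ?_⟩
      have e1 : -((b - (1 + ρ) * j) / ρ) + (b - (1 + ρ) * j) * (1 + ρ) / ρ =
          b - (1 + ρ) * j := by
        field_simp
        ring
      rw [e1] at hc2
      split_ifs with h0
      · rw [sub_zero, lt_div_iff₀ h1ρ]
        linarith
      · have h0' : (c : ℝ) < 0 := by
          exact_mod_cast lt_of_not_ge h0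
        rw [lt_sub_iff_add_lt, lt_div_iff₀ h1ρ]
        rw [neg_lt, lt_div_iff₀ hρ] at hc1
        nlinarith
    · exfalso
      rw [if_neg hj, add_zero] at hc2
      exact lt_irrefl _ (hc1.trans hc2)
  -- push the columns
  have h3 : SurM M {p : ℤ × ℤ | 0 < p.2 ∧ -(p.2 : ℝ) < p.1 ∧ (p.1 : ℝ) + (1 + ρ) * p.2 < b} := by
    refine hcol (fun c => if 0 ≤ c then (0:ℝ) else -(c : ℝ))
      (fun c : ℤ => (b - c) / (1 + ρ) - (if 0 ≤ c then (0:ℝ) else -(c : ℝ))) ?_ h2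
    intro c j hj1 hj2
    simp only [Set.mem_ofPred_eq] at hj1 hj2 ⊢
    rw [add_sub_cancel, lt_div_iff₀ h1ρ] at hj2
    split_ifs at hj1 with h0
    · have h0' : (0 : ℝ) ≤ c := by exact_mod_cast h0
      have hj : 0 < j := by exact_mod_cast hj1
      refine ⟨hj, by linarith, by linarith⟩
    · have h0' : (c : ℝ) < 0 := by
        exact_mod_cast lt_of_not_ge h0
      have hj : (0:ℝ) < j := by linarith
      refine ⟨by exact_mod_cast hj, by linarith, by linarith⟩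
  refine Sur.comap h3 1 (-1) 0 1 0 0 (by norm_num) ?_
  rintro ⟨c, y⟩ ⟨hy, hc, hcy⟩
  simp only at hy hc hcy
  refine ⟨(c + y, y), ⟨?_, hy, ?_⟩, ?_⟩
  · simp only
    have : -y < c := by exact_mod_cast hc
    linarith
  · simp only
    push_cast
    linarith
  · ext <;> simp

theorem tipE (hrow : S_RowE) (hcol : S_ColE) : S_TipE := by
  intro M b ρ hb hρ h
  have h1ρ : 0 < 1 + ρ := by linarith
  have h1 : EmpM M {p : ℤ × ℤ | 0 ≤ p.1 ∧ (p.1 : ℝ) ≤
      (fun j : ℤ => if 0 ≤ j then (b - (1 + ρ) * j) * (1 + ρ) / ρ else -1) p.2} := by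
    refine Emp.mono h ?_
    rintro ⟨x, j⟩ ⟨hx, hxj⟩
    simp only at hx hxj
    have hx' : (0:ℝ) ≤ x := by exact_mod_cast hx
    by_cases hj : 0 ≤ j
    · rw [if_pos hj, le_div_iff₀ hρ] at hxj
      refine ⟨hx, hj, ?_⟩
      simp only
      rw [le_div_iff₀ hρ]
      have e3 : ((x : ℝ) + (1 + ρ) ^ 2 / ρ * j) * ρ = (x : ℝ) * ρ + (1 + ρ) ^ 2 * j := by
        field_simp
      rw [e3]
      nlinarith
    · rw [if_neg hj] at hxj
      linarith
  have h2 : EmpM M {p : ℤ × ℤ | 0 ≤ p.2 ∧ (p.2 : ℝ) ≤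
      (fun c : ℤ => (b - c) / (1 + ρ) - (if 0 ≤ c then (0:ℝ) else -(c : ℝ))) p.1} := by
    refine hrow (fun j => -((b - (1 + ρ) * j) / ρ))
      (fun j : ℤ => if 0 ≤ j then (b - (1 + ρ) * j) * (1 + ρ) / ρ else -1) ?_ h1
    rintro c j ⟨hj, hcj⟩
    simp only at hj hcj ⊢
    have hj' : (0:ℝ) ≤ j := by exact_mod_cast hj
    rw [if_pos hj]
    have e1 : -((b - (1 + ρ) * j) / ρ) + (b - (1 + ρ) * j) * (1 + ρ) / ρ =
        b - (1 + ρ) * j := by
      field_simp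
      ring
    rw [e1]
    split_ifs at hcj with h0
    · have h0' : (0 : ℝ) ≤ c := by exact_mod_cast h0
      rw [sub_zero, le_div_iff₀ h1ρ] at hcj
      have e2 : 0 ≤ b - (1 + ρ) * j := by linarith
      refine ⟨?_, by linarith⟩
      have e3 : 0 ≤ (b - (1 + ρ) * j) / ρ := div_nonneg e2 hρ.le
      linarith
    · have h0' : (c : ℝ) < 0 := by
        exact_mod_cast lt_of_not_ge h0
      rw [le_sub_iff_add_le, le_div_iff₀ h1ρ] at hcj
      have e2 : (1 + ρ) * j - b ≤ ρ * c := by nlinarith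
      refine ⟨?_, by nlinarith⟩
      rw [neg_le, le_div_iff₀ hρ]
      linarith
  have h3 : EmpM M {p : ℤ × ℤ | 0 ≤ p.2 ∧ -(p.2 : ℝ) ≤ p.1 ∧ (p.1 : ℝ) + (1 + ρ) * p.2 ≤ b} := by
    refine hcol (fun c => if 0 ≤ c then (0:ℝ) else -(c : ℝ))
      (fun c : ℤ => (b - c) / (1 + ρ) - (if 0 ≤ c then (0:ℝ) else -(c : ℝ))) ?_ h2
    rintro c j ⟨hj, hc, hcj⟩
    simp only at hj hc hcj ⊢
    have hj' : (0:ℝ) ≤ j := by exact_mod_cast hj
    rw [add_sub_cancel, le_div_iff₀ h1ρ]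
    refine ⟨?_, by linarith⟩
    split_ifs with h0
    · exact hj'
    · linarith
  refine Emp.comap h3 1 (-1) 0 1 0 0 (by norm_num) ?_
  rintro ⟨x, y⟩ ⟨hx, hy, hxy⟩
  simp only at hx hy hxy ⊢
  have hx' : (0:ℝ) ≤ x := by exact_mod_cast hx
  refine ⟨by linarith, ?_, ?_⟩
  · push_cast
    linarith
  · push_cast
    linarith

/-- job TIP -/
theorem tip (h1 : S_RowS) (h2 : S_ColS) (h3 : S_RowE) (h4 : S_ColE) : S_TipS ∧ S_TipE :=
  ⟨tipS h1 h2, tipE h3 h4⟩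

/-- cutting finite sets -/
theorem cut_fin {ι κ : Type} [Finite ι] [Finite κ] {w : ι → ℕ} {v : κ → ℕ} {S U : Set (ℤ × ℤ)}
    (hS : S.Finite) (hU : U.Finite) (p q : ℝ)
    (hcut : ∀ m ∈ S, ∀ m' ∈ U, p * m.1 + q * m.2 < p * m'.1 + q * m'.2)
    (h1 : Emp w S) (h2 : Emp v U) : Emp (Sum.elim w v) (S ∪ U) := by
  obtain ⟨N, hN⟩ : ∃ N : ℤ, ∀ m ∈ S ∪ U, -N ≤ m.1 ∧ -N ≤ m.2 := by
    obtain ⟨A, hA⟩ := ((hS.union hU).image Prod.fst).bddBelow
    obtain ⟨B, hB⟩ := ((hS.union hU).image Prod.snd).bddBelow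
    refine ⟨|A| + |B|, fun m hm => ⟨?_, ?_⟩⟩
    · have e1 := hA (Set.mem_image_of_mem Prod.fst hm)
      have e2 := neg_abs_le A
      have e3 := abs_nonneg B
      linarith
    · have e1 := hB (Set.mem_image_of_mem Prod.snd hm)
      have e2 := neg_abs_le B
      have e3 := abs_nonneg A
      linarith
  let sh : ℤ × ℤ → ℤ × ℤ := fun m => (m.1 + N, m.2 + N)
  have hmem : ∀ (V : Set (ℤ × ℤ)) (m : ℤ × ℤ), m ∈ sh '' V → (m.1 - N, m.2 - N) ∈ V := by
    rintro V m ⟨m', hm', rfl⟩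
    simpa [sh] using hm'
  have k1 : Emp w (sh '' S) := by
    refine Emp.comap h1 1 0 0 1 (-N) (-N) (by norm_num) fun m hm => ?_
    have := hmem S m hm
    simpa [sub_eq_add_neg] using this
  have k2 : Emp v (sh '' U) := by
    refine Emp.comap h2 1 0 0 1 (-N) (-N) (by norm_num) fun m hm => ?_
    have := hmem U m hm
    simpa [sub_eq_add_neg] using this
  have k3 := Pool.Agent.TH366.RC.Emp_cutR (hS.image sh) (hU.image sh) (by
      rintro m ⟨m', hm', rfl⟩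
      have := hN m' (Or.inl hm')
      simp only [sh]
      constructor <;> linarith [this.1, this.2]) (by
      rintro m ⟨m', hm', rfl⟩
      have := hN m' (Or.inr hm')
      simp only [sh]
      constructor <;> linarith [this.1, this.2]) p q (by
      rintro m ⟨m1, hm1, rfl⟩ m' ⟨m2, hm2, rfl⟩
      have := hcut m1 hm1 m2 hm2
      simp only [sh]
      push_cast
      linarith) k1 k2
  refine Emp.comap k3 1 0 0 1 N N (by norm_num) fun m hm => ?_
  rcases hm with hm | hm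
  · left
    exact ⟨m, hm, by simp [sh]⟩
  · right
    exact ⟨m, hm, by simp [sh]⟩

theorem cutS : S_CutS := by
  classical
  intro M M' S S1 S2 α β c h1 h2 hM hM'
  obtain ⟨T1, a1, a2, a3⟩ := hM
  obtain ⟨T2, b1, b2, b3⟩ := hM'
  have hlt : ∀ m ∈ (↑T1 : Set (ℤ × ℤ)), ∀ m' ∈ (↑T2 : Set (ℤ × ℤ)),
      α * m.1 + β * m.2 < α * m'.1 + β * m'.2 := by
    intro m hm m' hm'
    exact lt_of_le_of_lt (h1 m (a1 hm)).2 (h2 m' (b1 hm')).2
  have k := cut_fin T1.finite_toSet T2.finite_toSet α β hlt a3 b3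
  refine (SurM_iff (w := Sum.elim (fun i : Fin M.toList.length => M.toList.get i)
    (fun i : Fin M'.toList.length => M'.toList.get i)) (by rw [ms_sum, ms_toList, ms_toList]) _).2 ?_
  refine ⟨T1 ∪ T2, ?_, ?_, ?_⟩
  · rw [coe_union]
    exact Set.union_subset (fun p hp => (h1 p (a1 hp)).1) fun p hp => (h2 p (b1 hp)).1
  · rw [card_union_of_disjoint, a2, b2]
    · unfold Pool.Agent.TH603.Sur.cond
      rw [Fintype.sum_sum_type]
      rfl
    · rw [Finset.disjoint_left]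
      intro p hp hp'
      exact lt_irrefl _ (hlt p hp p hp')
  · rw [coe_union]
    exact k

theorem cutE : S_CutE := by
  intro M M' S S1 S2 α β c hS h hM hM'
  refine (EmpM_iff (w := Sum.elim (fun i : Fin M.toList.length => M.toList.get i)
    (fun i : Fin M'.toList.length => M'.toList.get i)) (by rw [ms_sum, ms_toList, ms_toList]) _).2 ?_
  have k := cut_fin (S := {p | p ∈ S ∧ p ∈ S1 ∧ α * p.1 + β * p.2 ≤ c})
    (U := {p | p ∈ S ∧ p ∈ S2 ∧ c < α * p.1 + β * p.2}) (hS.subset fun p hp => hp.1)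
    (hS.subset fun p hp => hp.1) α β (fun m hm m' hm' => lt_of_le_of_lt hm.2.2 hm'.2.2)
    (Emp.mono hM fun p hp => hp.2.1) (Emp.mono hM' fun p hp => hp.2.1)
  refine Emp.mono k fun p hp => ?_
  rcases h p hp with h1 | h1
  · exact Or.inl ⟨hp, h1.1, h1.2⟩
  · exact Or.inr ⟨hp, h1.1, h1.2⟩

/-- job CUT -/
theorem cut : S_CutS ∧ S_CutE := ⟨cutS, cutE⟩

end Pool.Agent.Q275.WR
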